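import Mathlib

set_option autoImplicit false

namespace Pool.Agent.Results.MP_6750b5_co.Counter

open Finset

/-- rearrangements of a tuple. -/
def orb {n k : ℕ} (i : Fin k → Fin n) : Finset (Fin k → Fin n) :=
  univ.image fun σ : Equiv.Perm (Fin k) => i ∘ σ

/-- multinomial coefficient of the multiplicity vector of a tuple. -/
def mult {n k : ℕ} (i : Fin k → Fin n) : ℕ :=
  Nat.multinomial univ fun l : Fin n => (univ.filter fun a => i a = l).card

/-- edge weight of the symmetric tensor power. -/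
noncomputable def wt {n k : ℕ} (G : SimpleGraph (Fin n)) [DecidableRel G.Adj]
    (i j : Fin k → Fin n) : ℝ :=
  ((mult i : ℝ) * mult j) ^ (-(1 / 2) : ℝ) *
    ∑ p ∈ orb i, ∑ q ∈ orb j, ∏ l, if G.Adj (p l) (q l) then (1 : ℝ) else 0

theorem wt_pos {n k : ℕ} (G : SimpleGraph (Fin n)) [DecidableRel G.Adj] (i j : Fin k → Fin n) :
    0 < wt G i j ↔ ∃ p ∈ orb i, ∃ q ∈ orb j, ∀ l, G.Adj (p l) (q l) := by
  have h : (0 : ℝ) < ((mult i : ℝ) * mult j) ^ (-(1 / 2) : ℝ) := Real.rpow_pos_of_pos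
    (mul_pos (Nat.cast_pos.mpr (Nat.multinomial_pos _ _))
      (Nat.cast_pos.mpr (Nat.multinomial_pos _ _))) _
  rw [wt, mul_pos_iff_of_pos_left h]
  simp only [Fintype.prod_boole]
  rw [sum_pos_iff_of_nonneg fun _ _ => by positivity]
  refine exists_congr fun p => and_congr_right fun _ => ?_
  rw [sum_pos_iff_of_nonneg fun _ _ => by positivity]
  refine exists_congr fun q => and_congr_right fun _ => ?_
  split_ifs with e <;> simp [e]

def G0 : SimpleGraph (Fin 4) := SimpleGraph.fromRel fun a _ => a = 0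

instance : DecidableRel G0.Adj := by unfold G0; infer_instance

theorem result : ∃ (n : ℕ) (G : SimpleGraph (Fin n)) (_ : DecidableRel G.Adj) (k r : ℕ),
    1 ≤ k ∧ k < r ∧ ¬ ∃ φ : {i : Fin k → Fin n // Monotone i} → {j : Fin r → Fin n // Monotone j},
      ∀ x y, x ≠ y → wt G x.1 y.1 ≤ wt G (φ x).1 (φ y).1 := by
  refine ⟨4, G0, inferInstance, 2, 3, by norm_num, by norm_num, fun ⟨φ, h⟩ => ?_⟩
  let c : (Fin 3 → Fin 4) → ℕ := fun i => ∑ l, if i l = 0 then 1 else 0
  have key : ∀ x y, x ≠ y → (∃ p ∈ orb x.1, ∃ q ∈ orb y.1, ∀ l, G0.Adj (p l) (q l)) →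
      c (φ x).1 + c (φ y).1 = 3 := by
    intro x y hxy h1
    obtain ⟨p, hp, q, hq, h2⟩ := (wt_pos _ _ _).mp (((wt_pos _ _ _).mpr h1).trans_le (h x y hxy))
    obtain ⟨σ, -, rfl⟩ := mem_image.mp hp
    obtain ⟨τ, -, rfl⟩ := mem_image.mp hq
    simp only [c]
    rw [← Equiv.sum_comp σ, ← Equiv.sum_comp τ (fun l => if (φ y).1 l = 0 then 1 else 0),
      ← sum_add_distrib]
    exact (sum_congr rfl fun l _ => (by decide : ∀ a b, G0.Adj a b →
        (if a = 0 then 1 else 0) + (if b = 0 then 1 else 0) = 1) _ _ (h2 l)).trans (by simp)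
  have a := key ⟨![0, 1], by decide⟩ ⟨![0, 2], by decide⟩ (by decide) (by decide)
  have b := key ⟨![0, 1], by decide⟩ ⟨![0, 3], by decide⟩ (by decide) (by decide)
  have d := key ⟨![0, 2], by decide⟩ ⟨![0, 3], by decide⟩ (by decide) (by decide)
  omega

end Pool.Agent.Results.MP_6750b5_co.Counter
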